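import Pool.Agent.X222.RW.Order

set_option autoImplicit false

/-!
# The relative theorem for branching programs of bounded width
-/

namespace Pool.Agent.X222.RW

open Finset Function

/-- `F` is decided by a nondeterministic branching program of width `w` which reads the word in `q`
passes: it has `q n` steps, and in the step `t` it reads the letter number `t % n` in a fixed order
`σ` of the positions. -/
def InPasses {α : Type} {n : ℕ} (w q : ℕ) (F : Finset (Fin n → α)) : Prop :=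
  ∃ (M : Program α n w) (σ : Fin n ≃ Fin n), M.levels = q * n ∧
    (∀ t < q * n, ∀ a, (σ (M.query t a) : ℕ) = t % n) ∧ ∀ x, x ∈ F ↔ M.Accepts x

/-- `F` is decided by a nondeterministic branching program of width `w` with at most `q n` steps; the
nodes may read arbitrary letters. -/
def InSteps {α : Type} {n : ℕ} (w q : ℕ) (F : Finset (Fin n → α)) : Prop :=
  ∃ M : Program α n w, M.levels ≤ q * n ∧ ∀ x, x ∈ F ↔ M.Accepts x

variable {α : Type} [Fintype α] [DecidableEq α] [Nonempty α]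

/-- the word with the letters `c` in the block `B` and the letters of `u` outside -/
def emb {n m : ℕ} (B : Finset (Fin n)) (e : B ≃ Fin m) (u : Fin n → α) (c : Fin m → α) :
    Fin n → α := fun i => if h : i ∈ B then c (e ⟨i, h⟩) else u i

omit [Fintype α] [DecidableEq α] [Nonempty α] in
theorem emb_mem {n m : ℕ} {B : Finset (Fin n)} (e : B ≃ Fin m) (u : Fin n → α) (c : Fin m → α)
    (i : B) : emb B e u c i = c (e i) := dif_pos i.2

omit [Fintype α] [DecidableEq α] [Nonempty α] in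
theorem emb_notMem {n m : ℕ} {B : Finset (Fin n)} (e : B ≃ Fin m) (u : Fin n → α)
    (c : Fin m → α) {i : Fin n} (h : i ∉ B) : emb B e u c i = u i := dif_neg h

omit [Nonempty α] in
theorem thin_of_emb {n m R : ℕ} {S : Finset (Fin n → α)}
    (h : ∀ (B : Finset (Fin n)) (e : B ≃ Fin m) (u : Fin n → α),
      (univ.filter fun c : Fin m → α => emb B e u c ∈ S).card ≤ R) : Thin m R S := by
  intro B hB u
  let e : B ≃ Fin m := B.equivFinOfCardEq hB
  refine le_trans ?_ (h B e u)
  refine card_le_card_of_injOn (fun x a => x (e.symm a).1) ?_ ?_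
  · intro x hx
    obtain ⟨hx1, hx2⟩ := mem_filter.1 (mem_coe.1 hx)
    refine mem_coe.2 (mem_filter.2 ⟨mem_univ _, ?_⟩)
    have : emb B e u (fun a => x (e.symm a).1) = x := by
      funext i
      by_cases hi : i ∈ B
      · rw [emb_mem e u _ ⟨i, hi⟩, Equiv.symm_apply_apply]
      · rw [emb_notMem e u _ hi]
        exact (hx2 i hi).symm
    rw [this]
    exact hx1
  · intro x hx x' hx' hxx
    obtain ⟨_, hx2⟩ := mem_filter.1 (mem_coe.1 hx)
    obtain ⟨_, hx2'⟩ := mem_filter.1 (mem_coe.1 hx')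
    funext i
    by_cases hi : i ∈ B
    · have := congrFun hxx (e ⟨i, hi⟩)
      simpa using this
    · rw [hx2 i hi, hx2' i hi]

/-- the constant in the theorem -/
def cst (m w q : ℕ) : ℕ :=
  m + 4 * m * (4 * (2 * w * q) * (w * q + w + 2) + 1) ^ (2 * w * q)

/-- **The relative theorem.** -/
theorem relative {m R w q : ℕ} (hw : 1 ≤ w) (hq : 1 ≤ q) (hm : 1 ≤ m) {δ : ℝ}
    (hR : 32 * ((2 ^ (w * w * (2 * w * q)) : ℕ) : ℝ) * (R / Fintype.card α ^ m) ≤ δ)
    {n t : ℕ} (S F : Finset (Fin n → α)) (hS : Thin m R S)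
    (hF : (cst m w q * t ≤ n ∧ InPasses w q F) ∨ (cst m w q * t ^ (2 * w * q) ≤ n ∧ InSteps w q F)) :
    ((S ∩ F).card : ℝ) ≤ δ * F.card + Fintype.card α ^ n / 2 ^ t := by
  have hF0 : (0 : ℝ) ≤ F.card := Nat.cast_nonneg _
  have hα : (0 : ℝ) < Fintype.card α := by exact_mod_cast Fintype.card_pos
  set D := 2 * w * q with hD
  set C1 := 4 * D * (w * q + w + 2) with hC1
  have hcst : cst m w q = m + 4 * m * (C1 + 1) ^ D := rfl
  rw [hcst] at hF
  rcases hF with ⟨ht, M, σ, hL, hσ, hM⟩ | ⟨ht, M, hL, hM⟩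
  · have h2 := pass_bound hm q M σ hL hσ S F hS hM
    have h3 : ((2 ^ (w * w * q) : ℕ) : ℝ) ≤ ((2 ^ (w * w * D) : ℕ) : ℝ) := by
      have : 2 ^ (w * w * q) ≤ 2 ^ (w * w * D) := by
        refine Nat.pow_le_pow_right (by norm_num) (Nat.mul_le_mul_left _ ?_)
        exact Nat.le_mul_of_pos_left q (by omega)
      exact_mod_cast this
    have h4 : 32 * ((2 ^ (w * w * q) : ℕ) : ℝ) * (R / Fintype.card α ^ m) * F.card ≤
        δ * F.card := by
      refine mul_le_mul_of_nonneg_right (le_trans ?_ hR) hF0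
      gcongr
    have h5 : (Fintype.card α : ℝ) ^ n / 2 ^ (n / m) ≤ Fintype.card α ^ n / 2 ^ t := by
      have h6 : t ≤ n / m := by
        rw [Nat.le_div_iff_mul_le (by omega)]
        calc t * m = m * t := mul_comm _ _
          _ ≤ (m + 4 * m * (C1 + 1) ^ D) * t := Nat.mul_le_mul_right t (Nat.le_add_right _ _)
          _ ≤ n := ht
      have h7 : (2 : ℝ) ^ t ≤ 2 ^ (n / m) := pow_le_pow_right₀ (by norm_num) h6
      gcongr
    linarith
  · have h2 := order_bound (J := t) hm hw hq M hL (by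
      by_cases ht0 : t = 0
      · exact Or.inl ht0
      · right
        have ht1 : 1 ≤ t := Nat.one_le_iff_ne_zero.2 ht0
        have h3 : C1 * t + 1 ≤ (C1 + 1) * t := by
          rw [add_mul, one_mul]
          omega
        calc 4 * (m * (C1 * t + 1) ^ D) ≤ 4 * (m * ((C1 + 1) * t) ^ D) := by gcongr
          _ = 4 * m * (C1 + 1) ^ D * t ^ D := by rw [mul_pow]; ring
          _ ≤ (m + 4 * m * (C1 + 1) ^ D) * t ^ D := Nat.mul_le_mul_right _ (Nat.le_add_left _ _)
          _ ≤ n := ht) S F hS hM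
    have h4 : 32 * ((2 ^ (w * w * D) : ℕ) : ℝ) * (R / Fintype.card α ^ m) * F.card ≤ δ * F.card :=
      mul_le_mul_of_nonneg_right hR hF0
    linarith

omit [Nonempty α] in
/-- unions -/
theorem union_of_relative {n t T : ℕ} (A : Finset (Fin n → α)) (F : Fin T → Finset (Fin n → α))
    (hAF : ∀ x, x ∈ A ↔ ∃ i, x ∈ F i) (h : ∀ i, (((A ∩ F i).card : ℕ) : ℝ) ≤
      1 / 2 * (F i).card + Fintype.card α ^ n / 2 ^ t) :
    (A.card : ℝ) ≤ 2 * T * (Fintype.card α ^ n / 2 ^ t) := by
  have h2 : ∀ i, ((F i).card : ℝ) ≤ 2 * (Fintype.card α ^ n / 2 ^ t) := by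
    intro i
    have h3 : A ∩ F i = F i := by
      rw [inter_eq_right]
      intro x hx
      exact (hAF x).2 ⟨i, hx⟩
    have h4 := h i
    rw [h3] at h4
    linarith
  have h3 : A ⊆ univ.biUnion F := by
    intro x hx
    obtain ⟨i, hi⟩ := (hAF x).1 hx
    exact mem_biUnion.2 ⟨i, mem_univ _, hi⟩
  calc (A.card : ℝ) ≤ ((univ.biUnion F).card : ℝ) := by exact_mod_cast card_le_card h3
    _ ≤ ((∑ i, (F i).card : ℕ) : ℝ) := by exact_mod_cast card_biUnion_le
    _ = ∑ i, ((F i).card : ℝ) := by push_cast; rfl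
    _ ≤ ∑ _i : Fin T, 2 * ((Fintype.card α : ℝ) ^ n / 2 ^ t) := sum_le_sum fun i _ => h2 i
    _ = _ := by rw [sum_const, card_univ, Fintype.card_fin, nsmul_eq_mul]; ring

end Pool.Agent.X222.RW
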