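import Pool.Agent.X222.RW.Local
import Pool.Agent.X222.RW.Final
import Pool.Agent.H602R3.DHJ.Main

set_option autoImplicit false

/-!
# Progression-free sets of integers and programs reading the digits
-/

namespace Pool.Agent.X222.RW.Digits

open Finset Function

/-- `A` contains no progression `a, a + d, …, a + (k - 1) d` with `d > 0` -/
def APFree (k : ℕ) (A : Finset ℕ) : Prop := ∀ a d : ℕ, 0 < d → ¬ ∀ i < k, a + i * d ∈ A

/-- the words of the digits of the elements of `A` -/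
def wrd (b n : ℕ) (A : Finset ℕ) : Finset (Fin n → Fin b) :=
  univ.filter fun x => (∑ i, (x i : ℕ) * b ^ (i : ℕ)) ∈ A

theorem mem_wrd {b n : ℕ} {A : Finset ℕ} {x : Fin n → Fin b} :
    x ∈ wrd b n A ↔ (∑ i, (x i : ℕ) * b ^ (i : ℕ)) ∈ A := by
  unfold wrd
  rw [mem_filter]
  exact ⟨fun h => h.2, fun h => ⟨mem_univ _, h⟩⟩

theorem val_inj {b n : ℕ} {x y : Fin n → Fin b}
    (h : (∑ i, (x i : ℕ) * b ^ (i : ℕ)) = ∑ i, (y i : ℕ) * b ^ (i : ℕ)) : x = y := by
  apply finFunctionFinEquiv.injective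
  apply Fin.ext
  rw [finFunctionFinEquiv_apply, finFunctionFinEquiv_apply]
  exact h

theorem val_lt {b n : ℕ} (x : Fin n → Fin b) : (∑ i, (x i : ℕ) * b ^ (i : ℕ)) < b ^ n := by
  have := (finFunctionFinEquiv x).2
  rwa [finFunctionFinEquiv_apply] at this

theorem digit_val {b n : ℕ} (x : Fin n → Fin b) (i : Fin n) :
    (∑ i, (x i : ℕ) * b ^ (i : ℕ)) / b ^ (i : ℕ) % b = x i := by
  rw [← finFunctionFinEquiv_apply]
  conv_rhs => rw [← finFunctionFinEquiv.symm_apply_apply x]
  rw [finFunctionFinEquiv_symm_apply_val]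

theorem exists_word {b n a : ℕ} (ha : a < b ^ n) :
    ∃ x : Fin n → Fin b, (∑ i, (x i : ℕ) * b ^ (i : ℕ)) = a := by
  refine ⟨finFunctionFinEquiv.symm ⟨a, ha⟩, ?_⟩
  rw [← finFunctionFinEquiv_apply, Equiv.apply_symm_apply]

theorem card_wrd {b n : ℕ} {A : Finset ℕ} (hA : ∀ a ∈ A, a < b ^ n) :
    (wrd b n A).card = A.card := by
  refine card_bij (fun x _ => ∑ i, (x i : ℕ) * b ^ (i : ℕ)) ?_ ?_ ?_
  · intro x hx
    exact mem_wrd.1 hx
  · intro x _ y _ h
    exact val_inj h
  · intro a ha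
    obtain ⟨x, hx⟩ := exists_word (hA a ha)
    exact ⟨x, mem_wrd.2 (by rw [hx]; exact ha), hx⟩

/-- no digitwise progression with nonnegative difference -/
def GFree {b m : ℕ} (k : ℕ) (T : Finset (Fin m → Fin b)) : Prop :=
  ∀ x y : Fin m → ℕ, (∃ a, 0 < y a) → ¬ ∀ i < k, ∃ c ∈ T, ∀ a, (c a : ℕ) = x a + i * y a

theorem free_thin {b k n m R : ℕ} (hR : ∀ T : Finset (Fin m → Fin b), GFree k T → T.card ≤ R)
    {A : Finset ℕ} (hA : APFree k A) : Thin m R (wrd b n A) := by
  classical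
  apply thin_of_emb
  intro B e u
  apply hR
  rintro x y ⟨a0, ha0⟩ hall
  have hb : 0 < b := (u (e.symm a0).1).pos
  let X : Fin n → ℕ := fun i => if h : i ∈ B then x (e ⟨i, h⟩) else u i
  let Y : Fin n → ℕ := fun i => if h : i ∈ B then y (e ⟨i, h⟩) else 0
  refine hA (∑ i, X i * b ^ (i : ℕ)) (∑ i, Y i * b ^ (i : ℕ)) ?_ ?_
  · refine lt_of_lt_of_le ?_ (single_le_sum (f := fun i => Y i * b ^ (i : ℕ))
      (fun i _ => Nat.zero_le _) (mem_univ (e.symm a0).1))
    have h1 : Y (e.symm a0).1 = y a0 := by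
      show (if h : (e.symm a0).1 ∈ B then y (e ⟨(e.symm a0).1, h⟩) else 0) = _
      rw [dif_pos (e.symm a0).2]
      simp
    show 0 < Y (e.symm a0).1 * b ^ ((e.symm a0).1 : ℕ)
    rw [h1]
    positivity
  · intro i hi
    obtain ⟨c, hc, hcv⟩ := hall i hi
    have h1 := mem_wrd.1 (mem_filter.1 hc).2
    have h2 : (∑ v, X v * b ^ (v : ℕ)) + i * ∑ v, Y v * b ^ (v : ℕ) =
        ∑ v, ((emb B e u c v : Fin b) : ℕ) * b ^ (v : ℕ) := by
      rw [mul_sum, ← sum_add_distrib]
      refine sum_congr rfl fun v _ => ?_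
      have h3 : ((emb B e u c v : Fin b) : ℕ) = X v + i * Y v := by
        by_cases hv : v ∈ B
        · rw [emb_mem e u c ⟨v, hv⟩, hcv]
          show _ = (if h : v ∈ B then x (e ⟨v, h⟩) else (u v : ℕ)) +
            i * (if h : v ∈ B then y (e ⟨v, h⟩) else 0)
          rw [dif_pos hv, dif_pos hv]
        · rw [emb_notMem e u c hv]
          show _ = (if h : v ∈ B then x (e ⟨v, h⟩) else (u v : ℕ)) +
            i * (if h : v ∈ B then y (e ⟨v, h⟩) else 0)
          rw [dif_neg hv, dif_neg hv, mul_zero, add_zero]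
      rw [h3]
      ring
    rw [h2]
    exact h1

open Pool.Agent.H602R3.DHJ in
/-- digitwise progressions in dense sets, from the density Hales-Jewett theorem -/
theorem dens {b k : ℕ} (hb : 1 ≤ b) (hk : k ≤ b) {δ : ℝ} (hδ : 0 < δ) : ∃ m R : ℕ, 1 ≤ m ∧
      (∀ T : Finset (Fin m → Fin b), GFree k T → T.card ≤ R) ∧
      (R : ℝ) / (Fintype.card (Fin b) : ℝ) ^ m ≤ δ := by
  classical
  have : Nonempty (Fin b) := ⟨⟨0, hb⟩⟩
  have hD : D (Fin b) := D_equiv (finCongr (by omega : b - 1 + 1 = b)) (dhj (b - 1))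
  obtain ⟨N, hN⟩ := hD δ hδ
  have hbR : (0 : ℝ) < b := by exact_mod_cast hb
  have hpm : (0 : ℝ) < (b : ℝ) ^ (N + 1) := by positivity
  rw [Fintype.card_fin]
  refine ⟨N + 1, ⌊δ * (b : ℝ) ^ (N + 1)⌋₊, by omega, fun A hA => ?_, ?_⟩
  · apply Nat.le_floor
    have hfree : LFr (A : Set (Fin (N + 1) → Fin b)) := by
      intro V hV
      by_contra hcon
      push Not at hcon
      obtain ⟨i, hi⟩ := hV ()
      refine hA (fun i => Sum.elim (fun c : Fin b => (c : ℕ)) (fun _ => 0) (V i))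
        (fun i => Sum.elim (fun _ => 0) (fun _ => 1) (V i)) ⟨i, ?_⟩ ?_
      · show 0 < Sum.elim (fun _ => 0) (fun _ => 1) (V i)
        rw [hi]
        exact Nat.one_pos
      · intro j hj
        refine ⟨ap V (fun _ => ⟨j, by omega⟩), mem_coe.1 (hcon _), fun a => ?_⟩
        unfold ap
        rcases hVa : V a with c | c
        · simp
        · simp
    have h2 := D_up hN (Fin (N + 1)) (by rw [Fintype.card_fin]; omega) _ hfree
    have h3 : dn (A : Set (Fin (N + 1) → Fin b)) = (A.card : ℝ) / (b : ℝ) ^ (N + 1) := by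
      unfold dn av
      congr 1
      · rw [← sum_subset (subset_univ A)]
        · rw [sum_congr rfl fun x hx => Set.indicator_of_mem (by simpa using hx) _]
          simp
        · intro x _ hx
          rw [Set.indicator_of_notMem]
          simpa using hx
      · rw [Fintype.card_fun, Fintype.card_fin, Fintype.card_fin]
        push_cast
        rfl
    rw [h3, div_lt_iff₀ hpm] at h2
    exact h2.le
  · rw [div_le_iff₀ hpm]
    exact Nat.floor_le (by positivity)

/-- the contents of a block of consecutive digits -/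
theorem block_count {b k n m R : ℕ} (hm : 1 ≤ m)
    (hR : ∀ B ⊆ range (b ^ m), APFree k B → B.card ≤ R)
    {A : Finset ℕ} (hA : APFree k A) (j : Fin (n / m)) (u : Fin n → Fin b) :
    ((wrd b n A).filter fun x =>
      ∀ i, i ∉ (univ.filter fun v : Fin n => (v : ℕ) / m = j) → x i = u i).card ≤ R := by
  classical
  set G := (wrd b n A).filter fun x =>
      ∀ i, i ∉ (univ.filter fun v : Fin n => (v : ℕ) / m = j) → x i = u i with hG
  have hJm : n / m * m ≤ n := Nat.div_mul_le_self n m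
  have hlt : ∀ a : Fin m, (j : ℕ) * m + a < n := by
    intro a
    have h1 : (j : ℕ) + 1 ≤ n / m := j.2
    have h2 : ((j : ℕ) + 1) * m ≤ n := (Nat.mul_le_mul_right m h1).trans hJm
    have h3 := a.2
    nlinarith
  let p : Fin m → Fin n := fun a => ⟨j * m + a, hlt a⟩
  have hp : ∀ a, (p a : ℕ) / m = j := by
    intro a
    show ((j : ℕ) * m + a) / m = j
    rw [mul_comm, Nat.mul_add_div (by omega), Nat.div_eq_of_lt a.2, add_zero]
  have hpinj : Injective p := by
    intro a a' h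
    have h2 : (j : ℕ) * m + a = j * m + a' := congrArg Fin.val h
    exact Fin.ext (Nat.add_left_cancel h2)
  have hpsurj : ∀ v : Fin n, (v : ℕ) / m = j → ∃ a, p a = v := by
    intro v hv
    refine ⟨⟨(v : ℕ) % m, Nat.mod_lt _ (by omega)⟩, Fin.ext ?_⟩
    show (j : ℕ) * m + (v : ℕ) % m = v
    rw [← hv, mul_comm]
    exact Nat.div_add_mod (v : ℕ) m
  let g : (Fin n → Fin b) → ℕ := fun x => ∑ a : Fin m, (x (p a) : ℕ) * b ^ (a : ℕ)
  set c0 := ∑ i ∈ univ.filter fun v : Fin n => ¬ (v : ℕ) / m = j, (u i : ℕ) * b ^ (i : ℕ) with hc0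
  have hval : ∀ x ∈ G, (∑ i, (x i : ℕ) * b ^ (i : ℕ)) = c0 + b ^ ((j : ℕ) * m) * g x := by
    intro x hx
    have hx2 := (mem_filter.1 hx).2
    rw [← sum_filter_add_sum_filter_not univ (fun v : Fin n => (v : ℕ) / m = j), add_comm]
    congr 1
    · refine sum_congr rfl fun i hi => ?_
      rw [hx2 i fun h => (mem_filter.1 hi).2 (mem_filter.1 h).2]
    · show _ = b ^ ((j : ℕ) * m) * ∑ a : Fin m, (x (p a) : ℕ) * b ^ (a : ℕ)
      rw [mul_sum]
      symm
      refine sum_bij (fun a _ => p a) ?_ ?_ ?_ ?_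
      · intro a _
        exact mem_filter.2 ⟨mem_univ _, hp a⟩
      · intro a _ a' _ h
        exact hpinj h
      · intro v hv
        obtain ⟨a, ha⟩ := hpsurj v (mem_filter.1 hv).2
        exact ⟨a, mem_univ _, ha⟩
      · intro a _
        show b ^ ((j : ℕ) * m) * ((x (p a) : ℕ) * b ^ (a : ℕ)) =
          (x (p a) : ℕ) * b ^ ((j : ℕ) * m + a)
        rw [pow_add]
        ring
  have hb : ∀ x ∈ G, 0 < b := by
    intro x _
    by_contra hb
    have h1 : b = 0 := by omega
    have h2 := (x (p ⟨0, hm⟩)).2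
    omega
  have hginj : Set.InjOn g G := by
    intro x hx y hy h
    apply val_inj
    rw [hval x hx, hval y hy, h]
  rw [← card_image_of_injOn hginj]
  apply hR
  · intro v hv
    obtain ⟨x, _, rfl⟩ := mem_image.1 hv
    exact mem_range.2 (val_lt fun a => x (p a))
  · intro v d hd hall
    rcases Nat.eq_zero_or_pos k with rfl | hk
    · exact hA v d hd fun i hi => absurd hi (Nat.not_lt_zero i)
    · obtain ⟨x0, hx0, _⟩ := mem_image.1 (hall 0 hk)
      have hb0 := hb x0 hx0
      refine hA (c0 + b ^ ((j : ℕ) * m) * v) (b ^ ((j : ℕ) * m) * d) (by positivity) ?_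
      intro i hi
      obtain ⟨x, hx, hxv⟩ := mem_image.1 (hall i hi)
      have h1 := mem_wrd.1 (mem_filter.1 hx).1
      rw [hval x hx, hxv] at h1
      have h2 : c0 + b ^ ((j : ℕ) * m) * v + i * (b ^ ((j : ℕ) * m) * d) =
          c0 + b ^ ((j : ℕ) * m) * (v + i * d) := by ring
      rw [h2]
      exact h1

end Pool.Agent.X222.RW.Digits
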