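import Pool.Agent.X222.RW.Final

set_option autoImplicit false

/-!
# The relative corners theorem for branching programs of bounded width
-/

namespace Pool.Agent.X222.RW

open Finset Function

/-- `A ⊆ H × H` contains no nontrivial corner `(x, y), (x, y + z), (x + z, y)`, `z ≠ 0`. -/
def CornerFree {H : Type} [AddCommGroup H] (A : Finset (H × H)) : Prop :=
  ∀ x y z : H, (x, y) ∈ A → (x, y + z) ∈ A → (x + z, y) ∈ A → z = 0

/-- the word of the pairs of coordinates -/
def zipE (G : Type) (n : ℕ) : ((Fin n → G) × (Fin n → G)) ≃ (Fin n → G × G) where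
  toFun p := fun i => (p.1 i, p.2 i)
  invFun f := (fun i => (f i).1, fun i => (f i).2)
  left_inv _ := rfl
  right_inv _ := rfl

variable {G : Type} [AddCommGroup G] [Fintype G] [DecidableEq G] {n m R : ℕ}

theorem corner_thin (hR : ∀ A : Finset ((Fin m → G) × (Fin m → G)), CornerFree A → A.card ≤ R)
    (A : Finset ((Fin n → G) × (Fin n → G))) (hA : CornerFree A) :
    Thin m R (A.map (zipE G n).toEmbedding) := by
  classical
  apply thin_of_emb
  intro B e u
  set T : Finset ((Fin m → G) × (Fin m → G)) :=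
    univ.filter fun p => emb B e u (zipE G m p) ∈ A.map (zipE G n).toEmbedding with hT
  have h1 : (univ.filter fun c : Fin m → G × G =>
      emb B e u c ∈ A.map (zipE G n).toEmbedding).card = T.card := by
    symm
    refine card_bij (fun p _ => zipE G m p) ?_ ?_ ?_
    · intro p hp
      exact mem_filter.2 ⟨mem_univ _, (mem_filter.1 hp).2⟩
    · intro p _ p' _ h
      exact (zipE G m).injective h
    · intro c hc
      refine ⟨(zipE G m).symm c, mem_filter.2 ⟨mem_univ _, ?_⟩, (zipE G m).apply_symm_apply c⟩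
      rw [(zipE G m).apply_symm_apply]
      exact (mem_filter.1 hc).2
  rw [h1]
  apply hR
  -- extend points and differences
  let X : (Fin m → G) → Fin n → G := fun x i => if h : i ∈ B then x (e ⟨i, h⟩) else (u i).1
  let Y : (Fin m → G) → Fin n → G := fun y i => if h : i ∈ B then y (e ⟨i, h⟩) else (u i).2
  let Z : (Fin m → G) → Fin n → G := fun z i => if h : i ∈ B then z (e ⟨i, h⟩) else 0
  have hmem : ∀ x y, (x, y) ∈ T ↔ (X x, Y y) ∈ A := by
    intro x y
    have e1 : emb B e u (zipE G m (x, y)) = zipE G n (X x, Y y) := by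
      funext i
      by_cases h : i ∈ B
      · show (if h : i ∈ B then zipE G m (x, y) (e ⟨i, h⟩) else u i) =
          ((if h : i ∈ B then x (e ⟨i, h⟩) else (u i).1), (if h : i ∈ B then y (e ⟨i, h⟩) else (u i).2))
        rw [dif_pos h, dif_pos h, dif_pos h]
        rfl
      · show (if h : i ∈ B then zipE G m (x, y) (e ⟨i, h⟩) else u i) =
          ((if h : i ∈ B then x (e ⟨i, h⟩) else (u i).1), (if h : i ∈ B then y (e ⟨i, h⟩) else (u i).2))
        rw [dif_neg h, dif_neg h, dif_neg h]
    rw [hT, mem_filter, e1]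
    constructor
    · rintro ⟨_, h⟩
      obtain ⟨p, hp, hpe⟩ := mem_map.1 h
      have := (zipE G n).injective hpe
      rwa [← this]
    · intro h
      exact ⟨mem_univ _, mem_map_of_mem _ h⟩
  have hXZ : ∀ x z, X (x + z) = X x + Z z := by
    intro x z
    funext i
    show (if h : i ∈ B then (x + z) (e ⟨i, h⟩) else (u i).1) =
      (if h : i ∈ B then x (e ⟨i, h⟩) else (u i).1) + (if h : i ∈ B then z (e ⟨i, h⟩) else 0)
    by_cases h : i ∈ B
    · rw [dif_pos h, dif_pos h, dif_pos h]
      rfl
    · rw [dif_neg h, dif_neg h, dif_neg h, add_zero]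
  have hYZ : ∀ y z, Y (y + z) = Y y + Z z := by
    intro y z
    funext i
    show (if h : i ∈ B then (y + z) (e ⟨i, h⟩) else (u i).2) =
      (if h : i ∈ B then y (e ⟨i, h⟩) else (u i).2) + (if h : i ∈ B then z (e ⟨i, h⟩) else 0)
    by_cases h : i ∈ B
    · rw [dif_pos h, dif_pos h, dif_pos h]
      rfl
    · rw [dif_neg h, dif_neg h, dif_neg h, add_zero]
  intro x y z h2 h3 h4
  rw [hmem] at h2 h3 h4
  rw [hYZ] at h3
  rw [hXZ] at h4
  have h5 := hA (X x) (Y y) (Z z) h2 h3 h4
  funext a
  have h6 := congrFun h5 (e.symm a).1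
  have h7 : (if h : (e.symm a).1 ∈ B then z (e ⟨(e.symm a).1, h⟩) else 0) = (0 : G) := h6
  rw [dif_pos (e.symm a).2] at h7
  simpa using h7

omit [DecidableEq G] in
/-- the corners theorem in powers of a group -/
theorem corner_dens [Nontrivial G] {δ : ℝ} (hδ : 0 < δ) : ∃ m R : ℕ, 1 ≤ m ∧
    (∀ A : Finset ((Fin m → G) × (Fin m → G)), CornerFree A → A.card ≤ R) ∧
    (R : ℝ) / (Fintype.card (G × G) : ℝ) ^ m ≤ δ := by
  classical
  set m := cornersTheoremBound δ + 1 with hm
  have hG : 1 < Fintype.card G := Fintype.one_lt_card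
  have hcard : Fintype.card (Fin m → G) = Fintype.card G ^ m := by
    rw [Fintype.card_fun, Fintype.card_fin]
  have hpos : (0 : ℝ) < Fintype.card G := by exact_mod_cast (by omega : 0 < Fintype.card G)
  have e2 : (Fintype.card (G × G) : ℝ) ^ m = ((Fintype.card G : ℝ) ^ m) ^ 2 := by
    rw [Fintype.card_prod]
    push_cast
    rw [mul_pow]
    ring
  refine ⟨m, ⌊δ * ((Fintype.card G : ℝ) ^ m) ^ 2⌋₊, by omega, fun A hA => ?_, ?_⟩
  · apply Nat.le_floor
    by_contra hcon
    push Not at hcon
    refine corners_theorem (G := Fin m → G) δ hδ ?_ A ?_ ?_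
    · rw [hcard]
      have h1 : m < 2 ^ m := Nat.lt_two_pow_self
      have h2 : 2 ^ m ≤ Fintype.card G ^ m := Nat.pow_le_pow_left hG m
      omega
    · rw [hcard]
      push_cast
      exact hcon.le
    · intro x₁ y₁ x₂ y₂ h
      have h1 := h.fst_fst_mem
      have h2 := h.fst_snd_mem
      have h3 := h.snd_fst_mem
      have h4 := h.add_eq_add
      have h6 : x₂ - x₁ = y₂ - y₁ := by
        have : x₂ = y₂ - y₁ + x₁ := by
          rw [← sub_eq_zero]
          have := sub_eq_zero.2 h4
          calc x₂ - (y₂ - y₁ + x₁) = -(x₁ + y₂ - (x₂ + y₁)) := by abel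
            _ = 0 := by rw [this, neg_zero]
        rw [this]
        abel
      have h5 := hA x₁ y₁ (x₂ - x₁) (by simpa using h1)
        (by rw [h6, add_sub_cancel]; simpa using h2) (by rw [add_sub_cancel]; simpa using h3)
      exact (sub_eq_zero.1 h5).symm
  · rw [e2, div_le_iff₀ (by positivity)]
    exact Nat.floor_le (by positivity)

end Pool.Agent.X222.RW
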