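import Pool.Agent.X222.RW.Final
import Pool.Agent.Y426.BES.Graph

set_option autoImplicit false

/-!
# Sparse configurations of cells in products of quasigroups, inside sets decided by branching programs
-/

namespace Pool.Agent.X222.RW.Cells

open Finset Function

variable {Q : Type}

/-- no `e` members of `A` have at most `N` rows, columns and symbols together -/
def Free {n : ℕ} (mul : Fin n → Q → Q → Q) (e N : ℕ) (A : Finset (Fin n → Q × Q)) : Prop :=
  ∀ T ⊆ A, T.card = e → ∀ R C S : Finset (Fin n → Q),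
    (∀ t ∈ T, (fun i => (t i).1) ∈ R ∧ (fun i => (t i).2) ∈ C ∧
      (fun i => mul i (t i).1 (t i).2) ∈ S) → N < R.card + C.card + S.card

theorem free_mono {n : ℕ} {mul : Fin n → Q → Q → Q} {e N : ℕ}
    {A B : Finset (Fin n → Q × Q)} (h : B ⊆ A) (hA : Free mul e N A) :
    Free mul e N B := fun T hT => hA T (hT.trans h)

variable [Fintype Q] [DecidableEq Q]

/-- the contents in a block form a free set -/
theorem free_thin {n m e N R : ℕ} (mul : Fin n → Q → Q → Q)
    (hR : ∀ (B : Finset (Fin n)) (φ : B ≃ Fin m) (A : Finset (Fin m → Q × Q)),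
      Free (fun a => mul (φ.symm a)) e N A → A.card ≤ R)
    (A : Finset (Fin n → Q × Q)) (hA : Free mul e N A) : Thin m R A := by
  classical
  apply thin_of_emb
  intro B φ u
  apply hR B φ
  intro T hT hTe Rr C S hRCS
  -- extension of rows, columns and symbols
  let X : (Fin m → Q) → Fin n → Q := fun x i => if h : i ∈ B then x (φ ⟨i, h⟩) else (u i).1
  let Y : (Fin m → Q) → Fin n → Q := fun x i => if h : i ∈ B then x (φ ⟨i, h⟩) else (u i).2
  let Z : (Fin m → Q) → Fin n → Q := fun x i =>
    if h : i ∈ B then x (φ ⟨i, h⟩) else mul i (u i).1 (u i).2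
  have hinj : Injective (emb B φ u) := by
    intro c c' h
    funext a
    have h1 := congrFun h (φ.symm a).1
    rw [emb_mem, emb_mem] at h1
    simpa using h1
  have h1 := hA (T.image (emb B φ u)) (by
      intro p hp
      obtain ⟨c, hc, rfl⟩ := mem_image.1 hp
      exact (mem_filter.1 (hT hc)).2)
    (by rw [card_image_of_injective _ hinj, hTe]) (Rr.image X) (C.image Y) (S.image Z) (by
      intro p hp
      obtain ⟨c, hc, rfl⟩ := mem_image.1 hp
      obtain ⟨h2, h3, h4⟩ := hRCS c hc
      refine ⟨mem_image.2 ⟨_, h2, ?_⟩, mem_image.2 ⟨_, h3, ?_⟩, mem_image.2 ⟨_, h4, ?_⟩⟩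
      · funext i
        by_cases hi : i ∈ B
        · rw [emb_mem φ u c ⟨i, hi⟩]
          exact dif_pos hi
        · rw [emb_notMem φ u c hi]
          exact dif_neg hi
      · funext i
        by_cases hi : i ∈ B
        · rw [emb_mem φ u c ⟨i, hi⟩]
          exact dif_pos hi
        · rw [emb_notMem φ u c hi]
          exact dif_neg hi
      · funext i
        by_cases hi : i ∈ B
        · rw [emb_mem φ u c ⟨i, hi⟩]
          refine (dif_pos hi).trans ?_
          show mul (φ.symm (φ ⟨i, hi⟩)) _ _ = _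
          rw [Equiv.symm_apply_apply]
        · rw [emb_notMem φ u c hi]
          exact dif_neg hi)
  have a1 : (Rr.image X).card ≤ Rr.card := card_image_le
  have a2 : (C.image Y).card ≤ C.card := card_image_le
  have a3 : (S.image Z).card ≤ S.card := card_image_le
  omega

omit [DecidableEq Q] in
/-- products of arbitrary quasigroups: `e` cells with `e + 3` rows, columns and symbols -/
theorem quasi_dens (hQ : 2 ≤ Fintype.card Q) (e : ℕ) (he : 1 ≤ e) {δ : ℝ} (hδ : 0 < δ) :
    ∃ m R : ℕ, 1 ≤ m ∧ (∀ mul : Fin m → Q → Q → Q, (∀ i a, Bijective (mul i a)) →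
      (∀ i a, Bijective fun x => mul i x a) → ∀ A : Finset (Fin m → Q × Q),
        Free mul e (e + 3) A → A.card ≤ R) ∧
      (R : ℝ) / (Fintype.card (Q × Q) : ℝ) ^ m ≤ δ := by
  classical
  obtain ⟨N₀, hN₀⟩ := Y426.BES.cells_many.{0, 0} e he δ hδ
  have hpos : (0 : ℝ) < Fintype.card Q := by exact_mod_cast (by omega : 0 < Fintype.card Q)
  have hcard : (Fintype.card (Q × Q) : ℝ) ^ (N₀ + 1) =
      ((∏ _i : Fin (N₀ + 1), Fintype.card Q : ℕ) : ℝ) ^ 2 := by
    rw [Fintype.card_prod]
    simp only [prod_const, card_univ, Fintype.card_fin]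
    push_cast
    rw [mul_pow]
    ring
  have hpos2 : (0 : ℝ) < (Fintype.card (Q × Q) : ℝ) ^ (N₀ + 1) := by
    rw [Fintype.card_prod]
    push_cast
    positivity
  refine ⟨N₀ + 1, ⌊δ * (Fintype.card (Q × Q) : ℝ) ^ (N₀ + 1)⌋₊, by omega, fun mul h1 h2 A hA => ?_, ?_⟩
  · apply Nat.le_floor
    by_contra hcon
    push Not at hcon
    rw [hcard] at hcon
    obtain ⟨T, hTA, hTe, R, C, S, hRCS, hT⟩ := hN₀ (Fin (N₀ + 1)) (fun _ => Q) mul h1 h2
      (by rw [Fintype.card_fin]; omega) (fun _ => hQ) A hcon.le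
    have := hA T hTA hTe R C S hT
    omega
  · rw [div_le_iff₀ hpos2]
    exact Nat.floor_le (by positivity)

omit [DecidableEq Q] in
/-- powers of one operation: full subtables -/
theorem power_dens [Nonempty Q] (j : ℕ) (hj : 1 ≤ j) {δ : ℝ} (hδ : 0 < δ) :
    ∃ m R : ℕ, 1 ≤ m ∧ (∀ (op : Q → Q → Q) (A : Finset (Fin m → Q × Q)),
        Free (fun _ => op) (Fintype.card Q ^ (2 * j)) (3 * Fintype.card Q ^ j) A → A.card ≤ R) ∧
      (R : ℝ) / (Fintype.card (Q × Q) : ℝ) ^ m ≤ δ := by
  classical
  obtain ⟨n, hn⟩ := Helper903.DHJ.mdhj (Q × Q) j (min δ 1) (lt_min hδ one_pos)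
  have hpos1 : (0 : ℝ) < Fintype.card (Q × Q) := by exact_mod_cast Fintype.card_pos
  have hpos2 : (0 : ℝ) < (Fintype.card (Q × Q) : ℝ) ^ n := by positivity
  have hpos : (0 : ℝ) < Fintype.card (Fin n → Q × Q) := by exact_mod_cast Fintype.card_pos
  have hcc : (Fintype.card (Fin n → Q × Q) : ℝ) = (Fintype.card (Q × Q) : ℝ) ^ n := by
    rw [Fintype.card_fun, Fintype.card_fin]
    push_cast
    rfl
  refine ⟨n, ⌊δ * (Fintype.card (Q × Q) : ℝ) ^ n⌋₊, ?_, ?_, ?_⟩
  · by_contra h0
    obtain ⟨V, -⟩ := hn {x | True} (by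
      rw [Y426.BES.dens_eq]
      simp only [filter_true, card_univ]
      rw [div_self (by exact_mod_cast Fintype.card_ne_zero)]
      exact min_le_right _ _)
    obtain ⟨i, -⟩ := V.proper ⟨0, hj⟩
    exact absurd i.2 (by omega)
  · intro op H hH
    apply Nat.le_floor
    by_contra hcon
    push Not at hcon
    obtain ⟨V, hV⟩ := hn {w | w ∈ H} (by
      rw [Y426.BES.dens_eq]
      refine (min_le_left _ _).trans ?_
      rw [le_div_iff₀ hpos, hcc]
      refine hcon.le.trans (le_of_eq ?_)
      congr 2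
      ext z
      simp)
    have hcf : Fintype.card (Fin j → Q) = Fintype.card Q ^ j := by
      rw [Fintype.card_fun, Fintype.card_fin]
    have := hH (univ.image fun z : Fin j → Q × Q => V z) (by
        intro p hp
        obtain ⟨z, -, rfl⟩ := mem_image.1 hp
        exact hV z)
      (by
        rw [card_image_of_injective _ (Helper903.DHJ.sub_inj V), card_univ, Fintype.card_fun,
          Fintype.card_prod, Fintype.card_fin, pow_mul]
        congr 1
        ring)
      (univ.image fun x : Fin j → Q => fun i => (V (fun e => (x e, x e)) i).1)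
      (univ.image fun x : Fin j → Q => fun i => (V (fun e => (x e, x e)) i).2)
      (univ.image fun x : Fin j → Q => fun i =>
        Sum.elim (fun c => op c.1 c.2) x (V.idxFun i))
      (by
        intro p hp
        obtain ⟨z, -, rfl⟩ := mem_image.1 hp
        refine ⟨mem_image.2 ⟨fun e => (z e).1, mem_univ _, ?_⟩,
          mem_image.2 ⟨fun e => (z e).2, mem_univ _, ?_⟩,
          mem_image.2 ⟨fun e => op (z e).1 (z e).2, mem_univ _, ?_⟩⟩
        · funext i
          rw [Combinatorics.Subspace.apply_def, Combinatorics.Subspace.apply_def]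
          rcases V.idxFun i with c | e <;> rfl
        · funext i
          rw [Combinatorics.Subspace.apply_def, Combinatorics.Subspace.apply_def]
          rcases V.idxFun i with c | e <;> rfl
        · funext i
          rw [Combinatorics.Subspace.apply_def]
          rcases V.idxFun i with c | e <;> rfl)
    have a1 : ∀ g : (Fin j → Q) → (Fin n → Q),
        (univ.image g).card ≤ Fintype.card Q ^ j := by
      intro g
      rw [← hcf, ← card_univ]
      exact card_image_le
    have b1 := a1 fun x => fun i => (V (fun e => (x e, x e)) i).1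
    have b2 := a1 fun x => fun i => (V (fun e => (x e, x e)) i).2
    have b3 := a1 fun x => fun i => Sum.elim (fun c => op c.1 c.2) x (V.idxFun i)
    omega
  · rw [div_le_iff₀ hpos2]
    exact Nat.floor_le (by positivity)

omit [Fintype Q] in
/-- from triple systems to cells -/
theorem triples_rel [Nonempty Q] {n : ℕ} (mul : Fin n → Q → Q → Q) (e N : ℕ)
    (F : Finset (Fin n → Q × Q)) {V : Type} [DecidableEq V] (α β γ : (Fin n → Q) → V)
    (G : Finset (Finset V))
    (hG : ∀ f ∈ G, ∃ p ∈ F,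
      f = {α (fun i => (p i).1), β (fun i => (p i).2), γ (fun i => mul i (p i).1 (p i).2)})
    (hfree : ∀ S ⊆ G, S.card = e → N < (S.biUnion id).card) :
    ∃ A ⊆ F, Free mul e N A ∧ G.card = A.card := by
  classical
  choose! κ hκF hκ using hG
  have hinj : Set.InjOn κ G := by
    intro f hf f' hf' h
    rw [hκ f hf, hκ f' hf', h]
  refine ⟨G.image κ, ?_, ?_, (card_image_of_injOn hinj).symm⟩
  · intro p hp
    obtain ⟨f, hf, rfl⟩ := mem_image.1 hp
    exact hκF f hf
  · intro T hTH hTc R C S hT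
    have hsec : ∀ t ∈ T, ∃ f ∈ G, κ f = t := fun t ht => mem_image.mp (hTH ht)
    choose! φ hφ using hsec
    have hφinj : Set.InjOn φ T := by
      intro t ht t' ht' h
      rw [← (hφ t ht).2, ← (hφ t' ht').2, h]
    have h0 := hfree (T.image φ) (by
      intro f hf
      obtain ⟨t, ht, rfl⟩ := mem_image.mp hf
      exact (hφ t ht).1) (by rw [card_image_of_injOn hφinj, hTc])
    have h1 : (T.image φ).biUnion id ⊆ R.image α ∪ C.image β ∪ S.image γ := by
      intro z hz
      obtain ⟨f, hf, hzf⟩ := mem_biUnion.1 hz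
      obtain ⟨t, ht, rfl⟩ := mem_image.mp hf
      obtain ⟨hfG, hfp⟩ := hφ t ht
      rw [id, hκ _ hfG, hfp] at hzf
      obtain ⟨hR, hC, hS⟩ := hT t ht
      simp only [mem_insert, mem_singleton] at hzf
      rcases hzf with rfl | rfl | rfl
      · exact mem_union_left _ (mem_union_left _ (mem_image_of_mem _ hR))
      · exact mem_union_left _ (mem_union_right _ (mem_image_of_mem _ hC))
      · exact mem_union_right _ (mem_image_of_mem _ hS)
    have h2 := card_le_card h1
    have a1 := card_union_le (R.image α ∪ C.image β) (S.image γ)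
    have a2 := card_union_le (R.image α) (C.image β)
    have a3 : (R.image α).card ≤ R.card := card_image_le
    have a4 : (C.image β).card ≤ C.card := card_image_le
    have a5 : (S.image γ).card ≤ S.card := card_image_le
    omega

/-- **relative theorem for cells of products of quasigroups** -/
theorem quasi_rel (hQ : 2 ≤ Fintype.card Q) {w q : ℕ} (hw : 1 ≤ w) (hq : 1 ≤ q) (e : ℕ)
    (he : 1 ≤ e) (δ : ℝ) (hδ : 0 < δ) : ∃ C : ℕ, ∀ (n t : ℕ) (mul : Fin n → Q → Q → Q),
      (∀ i a, Bijective (mul i a)) → (∀ i a, Bijective fun x => mul i x a) →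
      ∀ A F : Finset (Fin n → Q × Q), Free mul e (e + 3) A →
      (C * t ≤ n ∧ InPasses w q F) ∨ (C * t ^ (2 * w * q) ≤ n ∧ InSteps w q F) →
      ((A ∩ F).card : ℝ) ≤ δ * F.card + (Fintype.card (Q × Q) : ℝ) ^ n / 2 ^ t := by
  have : Nonempty Q := Fintype.card_pos_iff.1 (by omega)
  obtain ⟨N, hN⟩ : ∃ N : ℕ, N = 2 ^ (w * w * (2 * w * q)) := ⟨_, rfl⟩
  have hN0 : (0 : ℝ) < N := by
    have : 0 < N := by rw [hN]; positivity
    exact_mod_cast this
  obtain ⟨m, R, hm, hR, hRδ⟩ := quasi_dens hQ e he (δ := δ / (32 * N)) (by positivity)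
  refine ⟨cst m w q, fun n t mul h1 h2 A F hA hF => ?_⟩
  refine relative hw hq hm ?_ A F
    (free_thin mul (fun B φ A' hA' => hR (fun a => mul (φ.symm a)) (fun i a => h1 _ a)
      (fun i a => h2 _ a) A' hA') A hA) hF
  rw [← hN]
  have h3 := mul_le_mul_of_nonneg_left hRδ (by positivity : (0 : ℝ) ≤ 32 * N)
  have h4 : 32 * (N : ℝ) * (δ / (32 * N)) = δ := by field_simp
  linarith

/-- **relative theorem for cells of powers of one operation** -/
theorem power_rel [Nonempty Q] {w q : ℕ} (hw : 1 ≤ w) (hq : 1 ≤ q) (j : ℕ)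
    (hj : 1 ≤ j) (δ : ℝ) (hδ : 0 < δ) : ∃ C : ℕ, ∀ (n t : ℕ) (op : Q → Q → Q)
      (A F : Finset (Fin n → Q × Q)),
      Free (fun _ => op) (Fintype.card Q ^ (2 * j)) (3 * Fintype.card Q ^ j) A →
      (C * t ≤ n ∧ InPasses w q F) ∨ (C * t ^ (2 * w * q) ≤ n ∧ InSteps w q F) →
      ((A ∩ F).card : ℝ) ≤ δ * F.card + (Fintype.card (Q × Q) : ℝ) ^ n / 2 ^ t := by
  obtain ⟨N, hN⟩ : ∃ N : ℕ, N = 2 ^ (w * w * (2 * w * q)) := ⟨_, rfl⟩
  have hN0 : (0 : ℝ) < N := by
    have : 0 < N := by rw [hN]; positivity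
    exact_mod_cast this
  obtain ⟨m, R, hm, hR, hRδ⟩ := power_dens (Q := Q) j hj (δ := δ / (32 * N)) (by positivity)
  refine ⟨cst m w q, fun n t op A F hA hF => ?_⟩
  refine relative hw hq hm ?_ A F
    (free_thin _ (fun B φ A' hA' => hR op A' hA') A hA) hF
  rw [← hN]
  have h3 := mul_le_mul_of_nonneg_left hRδ (by positivity : (0 : ℝ) ≤ 32 * N)
  have h4 : 32 * (N : ℝ) * (δ / (32 * N)) = δ := by field_simp
  linarith

end Pool.Agent.X222.RW.Cells
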