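import Pool.Agent.X222.RW.Prog

set_option autoImplicit false

/-!
# The bounds for programs, with a condition on the used blocks only
-/

namespace Pool.Agent.X222.RW

open Finset Function

section
variable {α : Type} [Fintype α] [DecidableEq α] [Nonempty α] {n : ℕ} {J m N : ℕ} {Cls : Fin J → Type}
variable [∀ j, Fintype (Cls j)]

omit [∀ j, Fintype (Cls j)] in
open Classical in
/-- progression-free subsets of a set given by few classes -/
theorem large_block' {R : ℕ} {B : Fin J → Finset (Fin n)}
    (hBm : ∀ j, (B j).card = m)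
    {κ : (Fin n → α) → ∀ j, Cls j}
    (hκ : ∀ j x x', (∀ i, (∀ j', j' ≠ j → i ∉ B j') → x i = x' i) → κ x j = κ x' j)
    (S F : Finset (Fin n → α)) (hS : ∀ j, ∀ u : Fin n → α, (S.filter fun x => ∀ i, i ∉ B j → x i = u i).card ≤ R)
    (hF : ∀ x x', x ∈ F → (∀ i, (∀ j, i ∉ B j) → x i = x' i) → (∀ j, κ x j = κ x' j) → x' ∈ F)
    (j : Fin J) : ((S ∩ F).filter fun x => ¬ Small N m B κ j x).card * Fintype.card α ^ m ≤
      16 * N * (R * F.card) := by
  set G := (S ∩ F).filter fun x => ¬ Small N m B κ j x with hG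
  set P : Finset ((Fin n → α) × (Fin n → α)) :=
    (G ×ˢ F).filter fun q => q.2 ∈ cl B κ j q.1 with hP
  have h1 : G.card * Fintype.card α ^ m ≤ 16 * N * P.card := by
    have h3 : P.card = ∑ x ∈ G, (F.filter fun y => y ∈ cl B κ j x).card := by
      rw [hP, card_filter, sum_product, sum_congr rfl fun x _ => (card_filter _ _).symm]
    rw [h3, mul_sum, ← smul_eq_mul (a := G.card), ← sum_const]
    refine sum_le_sum fun x hx => ?_
    obtain ⟨hx1, hx2⟩ := mem_filter.1 hx
    have h4 : (F.filter fun y => y ∈ cl B κ j x) = cl B κ j x := by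
      ext y
      rw [mem_filter]
      refine ⟨fun h => h.2, fun h => ⟨?_, h⟩⟩
      obtain ⟨hy1, hy2⟩ := mem_filter.1 h
      rw [mem_fib] at hy1
      refine hF x y (mem_inter.1 hx1).2 (fun i hi => (hy1 i (hi j)).symm) fun j' => ?_
      by_cases hjj : j' = j
      · rw [hjj]
        exact hy2.symm
      · apply hκ
        intro i hi
        exact (hy1 i (hi j (Ne.symm hjj))).symm
    rw [h4]
    unfold Small at hx2
    exact not_lt.1 hx2
  have h2 : P.card ≤ R * F.card := by
    have h3 : P.card = ∑ y ∈ F, (G.filter fun x => y ∈ cl B κ j x).card := by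
      rw [hP, card_filter, sum_product_right, sum_congr rfl fun x _ => (card_filter _ _).symm]
    rw [h3, mul_comm, ← smul_eq_mul, ← sum_const]
    refine sum_le_sum fun y _ => ?_
    refine le_trans (card_le_card ?_) (hS j y)
    intro x hx
    obtain ⟨hx1, hx2⟩ := mem_filter.1 hx
    have hx3 := (mem_filter.1 hx2).1
    rw [mem_fib] at hx3
    exact mem_filter.2 ⟨(mem_inter.1 (mem_filter.1 hx1).1).1, fun i hi => (hx3 i hi).symm⟩
  exact h1.trans (Nat.mul_le_mul_left _ h2)

/-- **Progression-free subsets of a set given by few classes of the contents of many blocks.** -/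
theorem classes_bound' {R : ℕ}
    (hN : ∀ j, Fintype.card (Cls j) ≤ N) {B : Fin J → Finset (Fin n)}
    (hBm : ∀ j, (B j).card = m) (hB : ∀ j j', j ≠ j' → Disjoint (B j) (B j'))
    {κ : (Fin n → α) → ∀ j, Cls j}
    (hκ : ∀ j x x', (∀ i, (∀ j', j' ≠ j → i ∉ B j') → x i = x' i) → κ x j = κ x' j)
    (S F : Finset (Fin n → α)) (hS : ∀ j, ∀ u : Fin n → α, (S.filter fun x => ∀ i, i ∉ B j → x i = u i).card ≤ R)
    (hF : ∀ x x', x ∈ F → (∀ i, (∀ j, i ∉ B j) → x i = x' i) → (∀ j, κ x j = κ x' j) → x' ∈ F) :
    ((S ∩ F).card : ℝ) ≤ 32 * N * (R / Fintype.card α ^ m) * F.card + Fintype.card α ^ n / 2 ^ J := by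
  classical
  have hp : 0 < Fintype.card α := Fintype.card_pos
  have hpR : (0 : ℝ) < Fintype.card α := by exact_mod_cast hp
  have hpm : (0 : ℝ) < Fintype.card α ^ m := by positivity
  set Bad := univ.filter fun x : Fin n → α =>
      J ≤ 2 * (univ.filter fun j => Small N m B κ j x).card with hBad
  have h1 : (Bad.card : ℝ) ≤ Fintype.card α ^ n / 2 ^ J := by
    rw [le_div_iff₀ (by positivity)]
    have := bad_small (m := m) hN hBm hB hκ
    rw [← hBad] at this
    have h2 : ((2 ^ J * Bad.card : ℕ) : ℝ) ≤ ((Fintype.card α ^ n : ℕ) : ℝ) := by exact_mod_cast this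
    push_cast at h2
    linarith
  have hcov : ((S ∩ F).card : ℝ) ≤ (((S ∩ F) \ Bad).card : ℝ) + Bad.card := by
    have h3 : (S ∩ F).card ≤ ((S ∩ F) \ Bad).card + Bad.card := by
      refine (card_le_card ?_).trans (card_union_le ((S ∩ F) \ Bad) Bad)
      rw [sdiff_union_self_eq_union]
      exact subset_union_left
    exact_mod_cast h3
  have hmain : (((S ∩ F) \ Bad).card : ℝ) ≤ 32 * N * (R / Fintype.card α ^ m) * F.card := by
    by_cases hJ : J = 0
    · have : (S ∩ F) \ Bad = ∅ := by
        rw [sdiff_eq_empty_iff_subset]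
        intro x _
        exact mem_filter.2 ⟨mem_univ _, by omega⟩
      rw [this, card_empty, Nat.cast_zero]
      positivity
    · have h2 : ((S ∩ F) \ Bad).card * J ≤
          2 * ∑ j, ((S ∩ F).filter fun x => ¬ Small N m B κ j x).card := by
        have h3 : ∑ j, (((S ∩ F) \ Bad).filter fun x => ¬ Small N m B κ j x).card ≤
            ∑ j, ((S ∩ F).filter fun x => ¬ Small N m B κ j x).card :=
          sum_le_sum fun j _ => card_le_card (filter_subset_filter _ sdiff_subset)
        refine le_trans ?_ (Nat.mul_le_mul_left 2 h3)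
        rw [sum_congr rfl fun j _ => card_filter _ _, sum_comm,
          sum_congr rfl fun x _ => (card_filter _ _).symm, mul_sum, ← smul_eq_mul, ← sum_const]
        refine sum_le_sum fun x hx => ?_
        have hx' : ¬ J ≤ 2 * (univ.filter fun j => Small N m B κ j x).card := by
          intro h
          exact (mem_sdiff.1 hx).2 (mem_filter.2 ⟨mem_univ _, h⟩)
        have h4 : (univ.filter fun j => Small N m B κ j x).card +
            (univ.filter fun j => ¬ Small N m B κ j x).card = J := by
          rw [card_filter_add_card_filter_not, card_univ, Fintype.card_fin]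
        omega
      have h5 : ((S ∩ F) \ Bad).card * J * Fintype.card α ^ m ≤ 2 * (J * (16 * N * (R * F.card))) := by
        calc ((S ∩ F) \ Bad).card * J * Fintype.card α ^ m ≤
              (2 * ∑ j, ((S ∩ F).filter fun x => ¬ Small N m B κ j x).card) * Fintype.card α ^ m :=
              Nat.mul_le_mul_right _ h2
          _ = 2 * ∑ j, ((S ∩ F).filter fun x => ¬ Small N m B κ j x).card * Fintype.card α ^ m := by
              rw [mul_assoc, sum_mul]
          _ ≤ 2 * ∑ _j : Fin J, 16 * N * (R * F.card) :=
              Nat.mul_le_mul_left 2 (sum_le_sum fun j _ => large_block' hBm hκ S F hS hF j)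
          _ = _ := by rw [sum_const, smul_eq_mul, card_univ, Fintype.card_fin]
      have hJ1 : (0 : ℝ) < J := by exact_mod_cast Nat.pos_of_ne_zero hJ
      have h6 : (((S ∩ F) \ Bad).card : ℝ) * J * Fintype.card α ^ m ≤ 2 * (J * (16 * N * (R * F.card))) := by
        exact_mod_cast h5
      have h7 : (((S ∩ F) \ Bad).card : ℝ) * Fintype.card α ^ m ≤ 32 * N * (R * F.card) := by
        have : J * ((((S ∩ F) \ Bad).card : ℝ) * Fintype.card α ^ m) ≤ J * (32 * N * (R * F.card)) := by
          linarith
        exact le_of_mul_le_mul_left this hJ1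
      rw [show 32 * N * ((R : ℝ) / Fintype.card α ^ m) * F.card = (32 * N * (R * F.card)) / Fintype.card α ^ m by ring,
        le_div_iff₀ hpm]
      exact h7
  linarith

end

section
variable {α : Type} {n w : ℕ}
variable [Fintype α] [DecidableEq α] [Nonempty α] {J m R Q : ℕ}

/-- **Programs whose levels are divided into intervals each of which meets at most one block.** -/
theorem prog_bound' (B : Fin J → Finset (Fin n)) (hBm : ∀ j, (B j).card = m)
    (hB : ∀ j j', j ≠ j' → Disjoint (B j) (B j')) (M : Program α n w) (I : ℕ) (τ : ℕ → ℕ)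
    (hτ : ∀ i, i < I → τ i ≤ τ (i + 1)) (hτ0 : τ 0 = 0) (hτI : τ I = M.levels)
    (own : ℕ → Option (Fin J))
    (hown : ∀ i, i < I → ∀ t, τ i ≤ t → t < τ (i + 1) → ∀ a j, M.query t a ∈ B j → own i = some j)
    (hQ : ∀ j, ((range I).filter fun i => own i = some j).card ≤ Q)
    (S F : Finset (Fin n → α)) (hS : ∀ j, ∀ u : Fin n → α, (S.filter fun x => ∀ i, i ∉ B j → x i = u i).card ≤ R) (hF : ∀ x, x ∈ F ↔ M.Accepts x) :
    ((S ∩ F).card : ℝ) ≤ 32 * ((2 ^ (w * w * Q) : ℕ) : ℝ) * (R / Fintype.card α ^ m) * F.card +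
      Fintype.card α ^ n / 2 ^ J := by
  classical
  let κ : (Fin n → α) → ∀ j : Fin J, ({i : Fin I // own i = some j} → Fin w → Fin w → Bool) :=
    fun x j i a b => decide (M.Reach x (τ i.1) (τ (i.1 + 1) - τ i.1) a b)
  refine classes_bound' (κ := κ) ?_ hBm hB ?_ S F hS ?_
  · intro j
    rw [Fintype.card_fun, Fintype.card_fun, Fintype.card_fun, Fintype.card_bool, Fintype.card_fin,
      Fintype.card_subtype]
    have h1 : (univ.filter fun i : Fin I => own i = some j).card ≤ Q := by
      refine le_trans (le_of_eq ?_) (hQ j)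
      refine card_bij (fun i _ => (i : ℕ)) ?_ ?_ ?_
      · intro i hi
        exact mem_filter.2 ⟨mem_range.2 i.2, (mem_filter.1 hi).2⟩
      · intro i _ i' _ h
        exact Fin.ext h
      · intro i hi
        obtain ⟨h1, h2⟩ := mem_filter.1 hi
        exact ⟨⟨i, mem_range.1 h1⟩, mem_filter.2 ⟨mem_univ _, h2⟩, rfl⟩
    rw [← pow_mul, ← pow_mul]
    refine Nat.pow_le_pow_right (by norm_num) ?_
    rw [← mul_assoc]
    exact Nat.mul_le_mul_left _ h1
  · intro j x x' hxx
    have key : ∀ y y' : Fin n → α, (∀ i, (∀ j', j' ≠ j → i ∉ B j') → y i = y' i) →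
        ∀ (i : {i : Fin I // own i = some j}) a b,
          M.Reach y (τ i.1) (τ (i.1 + 1) - τ i.1) a b →
          M.Reach y' (τ i.1) (τ (i.1 + 1) - τ i.1) a b := by
      intro y y' hyy i a b h
      refine M.reach_congr (fun t ht ht' c => hyy _ fun j' hj' hmem => ?_) a b h
      have h1 := hown i.1 i.1.2 t ht (by have := hτ i.1 i.1.2; omega) c j' hmem
      rw [i.2] at h1
      exact hj' (Option.some.inj h1).symm
    funext i a b
    exact decide_eq_decide.2 ⟨key x x' hxx i a b,
      key x' x (fun v hv => (hxx v hv).symm) i a b⟩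
  · intro x x' hx hxx hκ
    rw [hF, M.accepts_iff] at hx ⊢
    obtain ⟨a, b, h1, h2, h3⟩ := hx
    refine ⟨a, b, h1, h2, ?_⟩
    have key : ∀ i, i ≤ I → ∀ c, M.Reach x 0 (τ i) a c → M.Reach x' 0 (τ i) a c := by
      intro i
      induction i with
      | zero =>
        intro _ c h
        rw [hτ0] at h ⊢
        exact h
      | succ i ih =>
        intro hi c h
        have e : τ (i + 1) = τ i + (τ (i + 1) - τ i) := by
          have := hτ i (by omega)
          omega
        rw [e, M.reach_add] at h ⊢
        obtain ⟨c', h4, h5⟩ := h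
        refine ⟨c', ih (by omega) c' h4, ?_⟩
        rw [zero_add] at h5 ⊢
        cases ho : own i with
        | none =>
          refine M.reach_congr (fun t ht ht' c => hxx _ fun j hmem => ?_) c' c h5
          have h6 := hown i (by omega) t ht (by omega) c j hmem
          rw [ho] at h6
          cases h6
        | some j =>
          have h6 := congrFun (congrFun (congrFun (hκ j) ⟨⟨i, by omega⟩, ho⟩) c') c
          exact (decide_eq_decide.1 h6).1 h5
    have h4 := key I le_rfl b
    rw [hτI] at h4
    exact h4 h3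

/-- **Programs which read the word in passes.** -/
theorem pass_bound' (hm : 1 ≤ m) (q : ℕ)
    (M : Program α n w) (σ : Fin n ≃ Fin n) (hL : M.levels = q * n)
    (hσ : ∀ t < q * n, ∀ a, (σ (M.query t a) : ℕ) = t % n)
    (S F : Finset (Fin n → α)) (hS : ∀ j : Fin (n / m), ∀ u : Fin n → α,
      (S.filter fun x => ∀ i, i ∉ (univ.filter fun v => (σ v : ℕ) / m = j) → x i = u i).card ≤ R) (hF : ∀ x, x ∈ F ↔ M.Accepts x) :
    ((S ∩ F).card : ℝ) ≤ 32 * ((2 ^ (w * w * q) : ℕ) : ℝ) * (R / Fintype.card α ^ m) * F.card +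
      Fintype.card α ^ n / 2 ^ (n / m) := by
  classical
  set J := n / m with hJ
  have hJm : J * m ≤ n := Nat.div_mul_le_self n m
  refine prog_bound' (fun j : Fin J => univ.filter fun v => (σ v : ℕ) / m = j) ?_ ?_ M
    (q * (J + 1)) (cutp n m J) ?_ ?_ ?_
    (fun i => if h : i % (J + 1) < J then some ⟨i % (J + 1), h⟩ else none) ?_ ?_ S F hS hF
  · intro j
    have hlt : ∀ a : Fin m, (j : ℕ) * m + a < n := by
      intro a
      have h1 : (j : ℕ) + 1 ≤ J := j.2
      have h2 : ((j : ℕ) + 1) * m ≤ n := (Nat.mul_le_mul_right m h1).trans hJm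
      have h3 := a.2
      nlinarith
    have h1 : (univ.filter fun v : Fin n => (σ v : ℕ) / m = j).card = (univ : Finset (Fin m)).card := by
      symm
      refine card_bij (fun a _ => σ.symm ⟨j * m + a, hlt a⟩) ?_ ?_ ?_
      · intro a _
        rw [mem_filter]
        refine ⟨mem_univ _, ?_⟩
        rw [Equiv.apply_symm_apply]
        show (j * m + a : ℕ) / m = j
        rw [mul_comm, Nat.mul_add_div (by omega), Nat.div_eq_of_lt a.2, add_zero]
      · intro a _ a' _ h
        have h2 := congrArg Fin.val (σ.symm.injective h)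
        exact Fin.ext (Nat.add_left_cancel h2)
      · intro v hv
        have h2 := (mem_filter.1 hv).2
        have h3 := Nat.div_add_mod (σ v : ℕ) m
        refine ⟨⟨(σ v : ℕ) % m, Nat.mod_lt _ (by omega)⟩, mem_univ _, ?_⟩
        rw [Equiv.symm_apply_eq]
        apply Fin.ext
        show (j : ℕ) * m + (σ v : ℕ) % m = σ v
        rw [← h2, mul_comm]
        exact h3
    rw [h1, card_univ, Fintype.card_fin]
  · intro j j' hne
    rw [Finset.disjoint_left]
    intro v hv hv'
    have h1 := (mem_filter.1 hv).2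
    have h2 := (mem_filter.1 hv').2
    exact hne (Fin.ext (h1.symm.trans h2))
  · intro i _
    have hJ1 : 0 < J + 1 := Nat.succ_pos _
    show cutp n m J i ≤ cutp n m J (i + 1)
    by_cases h : i % (J + 1) = J
    · rw [cutp_eq h]
      unfold cutp
      rw [h]
      exact Nat.add_le_add_left hJm _
    · have h0 : i % (J + 1) < J := by
        have := Nat.mod_lt i hJ1
        omega
      rw [cutp_lt h0]
      unfold cutp
      exact Nat.add_le_add_left (Nat.mul_le_mul_right m (Nat.le_succ _)) _
  · unfold cutp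
    simp
  · unfold cutp
    rw [Nat.mul_div_cancel _ (Nat.succ_pos J), Nat.mul_mod_left, zero_mul, add_zero, hL]
  · intro i hi t ht ht' a j hmem
    have hJ1 : 0 < J + 1 := Nat.succ_pos _
    have hiq : i / (J + 1) < q := Nat.div_lt_of_lt_mul (by rwa [mul_comm] at hi)
    have h1 : (σ (M.query t a) : ℕ) / m = j := (mem_filter.1 hmem).2
    obtain ⟨s, hs⟩ : ∃ s, t = i / (J + 1) * n + s := ⟨t - i / (J + 1) * n, by
      unfold cutp at ht
      omega⟩
    have hs1 : i % (J + 1) * m ≤ s := by
      unfold cutp at ht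
      omega
    have hsn : s < n ∧ (i % (J + 1) < J → s < (i % (J + 1) + 1) * m) := by
      by_cases h : i % (J + 1) = J
      · rw [cutp_eq h] at ht'
        exact ⟨by omega, fun h' => absurd h (by omega)⟩
      · have h0 : i % (J + 1) < J := by
          have := Nat.mod_lt i hJ1
          omega
        rw [cutp_lt h0] at ht'
        have h2 : (i % (J + 1) + 1) * m ≤ J * m := Nat.mul_le_mul_right m (by omega)
        exact ⟨by omega, fun _ => by omega⟩
    have htq : t < q * n := by
      have h2 : (i / (J + 1) + 1) * n ≤ q * n := Nat.mul_le_mul_right n (by omega)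
      rw [add_mul, one_mul] at h2
      omega
    have h3 : t % n = s := by
      rw [hs, mul_comm, Nat.mul_add_mod, Nat.mod_eq_of_lt hsn.1]
    rw [hσ t htq, h3] at h1
    by_cases h : i % (J + 1) < J
    · have h4 : s / m = i % (J + 1) := by
        apply Nat.div_eq_of_lt_le hs1
        exact hsn.2 h
      rw [dif_pos h]
      congr 1
      apply Fin.ext
      show i % (J + 1) = j
      rw [← h4, h1]
    · exfalso
      have h0 : i % (J + 1) = J := by
        have := Nat.mod_lt i hJ1
        omega
      rw [h0] at hs1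
      have h4 : J ≤ s / m := (Nat.le_div_iff_mul_le (by omega)).2 hs1
      have := j.2
      omega
  · intro j
    refine (card_le_card_of_injOn (fun i => i / (J + 1)) (t := range q) ?_ ?_).trans
      (le_of_eq (card_range q))
    · intro i hi
      have h1 := mem_range.1 (mem_filter.1 (mem_coe.1 hi)).1
      exact mem_coe.2 (mem_range.2 (Nat.div_lt_of_lt_mul (by rwa [mul_comm] at h1)))
    · intro i hi i' hi' h
      have h1 := (mem_filter.1 (mem_coe.1 hi)).2
      have h2 := (mem_filter.1 (mem_coe.1 hi')).2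
      have key : ∀ i, (if h : i % (J + 1) < J then some (⟨i % (J + 1), h⟩ : Fin J) else none) = some j →
          i % (J + 1) = j := by
        intro i hi
        by_cases h : i % (J + 1) < J
        · rw [dif_pos h] at hi
          exact congrArg Fin.val (Option.some.inj hi)
        · rw [dif_neg h] at hi
          cases hi
      have h3 := key i h1
      have h4 := key i' h2
      have h5 : i / (J + 1) = i' / (J + 1) := h
      rw [← Nat.div_add_mod i (J + 1), ← Nat.div_add_mod i' (J + 1), h3, h4, h5]

end

end Pool.Agent.X222.RW
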