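import Pool.Agent.X222.RW.Classes

set_option autoImplicit false

/-!
# Branching programs of bounded width
-/

namespace Pool.Agent.X222.RW

open Finset Function

/-- A nondeterministic branching program over the alphabet `α` with `w` nodes on each of its
levels `0, …, levels`: the node `a` on the level `t < levels` reads the coordinate `query t a`, and
if this coordinate is `g`, it has an edge to the node `b` on the level `t + 1` if `step t a g b`
holds. -/
structure Program (α : Type) (n w : ℕ) where
  /-- the number of the last level -/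
  levels : ℕ
  /-- the coordinate read at a node -/
  query : ℕ → Fin w → Fin n
  /-- the initial nodes on the level `0` -/
  start : Fin w → Prop
  /-- the edges -/
  step : ℕ → Fin w → α → Fin w → Prop
  /-- the accepting nodes on the last level -/
  accept : Fin w → Prop

variable {α : Type} {n w : ℕ}

/-- the program has an accepting run for `x` -/
def Program.Accepts (M : Program α n w) (x : Fin n → α) : Prop :=
  ∃ r : ℕ → Fin w, M.start (r 0) ∧ M.accept (r M.levels) ∧
    ∀ t < M.levels, M.step t (r t) (x (M.query t (r t))) (r (t + 1))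

/-- there is a run from `a` on the level `t` to `b` on the level `t + s` -/
def Program.Reach (M : Program α n w) (x : Fin n → α) (t : ℕ) : ℕ → Fin w → Fin w → Prop
  | 0, a, b => a = b
  | s + 1, a, b => ∃ c, M.Reach x t s a c ∧ M.step (t + s) c (x (M.query (t + s) c)) b

theorem Program.reach_run (M : Program α n w) (x : Fin n → α) (r : ℕ → Fin w) (L : ℕ)
    (h : ∀ t < L, M.step t (r t) (x (M.query t (r t))) (r (t + 1))) :
    ∀ s ≤ L, M.Reach x 0 s (r 0) (r s) := by
  intro s
  induction s with
  | zero => intro _; rfl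
  | succ s ih =>
    intro hs
    refine ⟨r s, ih (by omega), ?_⟩
    rw [zero_add]
    exact h s (by omega)

theorem Program.run_reach (M : Program α n w) (x : Fin n → α) (s : ℕ) (a b : Fin w)
    (h : M.Reach x 0 s a b) : ∃ r : ℕ → Fin w, r 0 = a ∧ r s = b ∧
      ∀ t < s, M.step t (r t) (x (M.query t (r t))) (r (t + 1)) := by
  induction s generalizing b with
  | zero => exact ⟨fun _ => a, rfl, h, fun t ht => absurd ht (Nat.not_lt_zero t)⟩
  | succ s ih =>
    obtain ⟨c, h1, h2⟩ := h
    obtain ⟨r, hr0, hrs, hr⟩ := ih c h1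
    refine ⟨fun t => if t ≤ s then r t else b, ?_, ?_, ?_⟩
    · show (if 0 ≤ s then r 0 else b) = a
      rw [if_pos (Nat.zero_le s)]
      exact hr0
    · show (if s + 1 ≤ s then r (s + 1) else b) = b
      rw [if_neg (by omega)]
    · intro t ht
      show M.step t (if t ≤ s then r t else b) (x (M.query t (if t ≤ s then r t else b)))
        (if t + 1 ≤ s then r (t + 1) else b)
      rw [if_pos (by omega : t ≤ s)]
      by_cases hts : t + 1 ≤ s
      · rw [if_pos hts]
        exact hr t (by omega)
      · rw [if_neg hts]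
        obtain rfl : t = s := by omega
        rw [hrs]
        rw [zero_add] at h2
        exact h2

theorem Program.accepts_iff (M : Program α n w) (x : Fin n → α) :
    M.Accepts x ↔ ∃ a b, M.start a ∧ M.accept b ∧ M.Reach x 0 M.levels a b := by
  constructor
  · rintro ⟨r, h1, h2, h3⟩
    exact ⟨r 0, r M.levels, h1, h2, M.reach_run x r M.levels h3 _ le_rfl⟩
  · rintro ⟨a, b, h1, h2, h3⟩
    obtain ⟨r, h4, h5, h6⟩ := M.run_reach x _ a b h3
    exact ⟨r, by rwa [h4], by rwa [h5], h6⟩

theorem Program.reach_add (M : Program α n w) (x : Fin n → α) (t s s' : ℕ) (a b : Fin w) :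
    M.Reach x t (s + s') a b ↔ ∃ c, M.Reach x t s a c ∧ M.Reach x (t + s) s' c b := by
  induction s' generalizing b with
  | zero =>
    constructor
    · intro h
      exact ⟨b, h, rfl⟩
    · rintro ⟨c, h1, h2⟩
      have : c = b := h2
      rw [← this]
      exact h1
  | succ s' ih =>
    constructor
    · rintro ⟨c, h1, h2⟩
      obtain ⟨c', h3, h4⟩ := (ih c).1 h1
      exact ⟨c', h3, c, h4, by rwa [add_assoc]⟩
    · rintro ⟨c, h1, c', h2, h3⟩
      exact ⟨c', (ih c').2 ⟨c, h1, h2⟩, by rwa [add_assoc] at h3⟩

theorem Program.reach_congr (M : Program α n w) {x x' : Fin n → α} {t s : ℕ}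
    (h : ∀ τ, t ≤ τ → τ < t + s → ∀ a, x (M.query τ a) = x' (M.query τ a)) (a b : Fin w)
    (hr : M.Reach x t s a b) : M.Reach x' t s a b := by
  induction s generalizing b with
  | zero => exact hr
  | succ s ih =>
    obtain ⟨c, h1, h2⟩ := hr
    refine ⟨c, ih (fun τ h3 h4 => h τ h3 (by omega)) c h1, ?_⟩
    rw [← h (t + s) (by omega) (by omega)]
    exact h2

section
variable [Fintype α] [DecidableEq α] [Nonempty α] {J m R Q : ℕ}

/-- **Programs whose levels are divided into intervals each of which meets at most one block.** -/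
theorem prog_bound (B : Fin J → Finset (Fin n)) (hBm : ∀ j, (B j).card = m)
    (hB : ∀ j j', j ≠ j' → Disjoint (B j) (B j')) (M : Program α n w) (I : ℕ) (τ : ℕ → ℕ)
    (hτ : ∀ i, i < I → τ i ≤ τ (i + 1)) (hτ0 : τ 0 = 0) (hτI : τ I = M.levels)
    (own : ℕ → Option (Fin J))
    (hown : ∀ i, i < I → ∀ t, τ i ≤ t → t < τ (i + 1) → ∀ a j, M.query t a ∈ B j → own i = some j)
    (hQ : ∀ j, ((range I).filter fun i => own i = some j).card ≤ Q)
    (S F : Finset (Fin n → α)) (hS : Thin m R S) (hF : ∀ x, x ∈ F ↔ M.Accepts x) :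
    ((S ∩ F).card : ℝ) ≤ 32 * ((2 ^ (w * w * Q) : ℕ) : ℝ) * (R / Fintype.card α ^ m) * F.card +
      Fintype.card α ^ n / 2 ^ J := by
  classical
  let κ : (Fin n → α) → ∀ j : Fin J, ({i : Fin I // own i = some j} → Fin w → Fin w → Bool) :=
    fun x j i a b => decide (M.Reach x (τ i.1) (τ (i.1 + 1) - τ i.1) a b)
  refine classes_bound (κ := κ) ?_ hBm hB ?_ S F hS ?_
  · intro j
    rw [Fintype.card_fun, Fintype.card_fun, Fintype.card_fun, Fintype.card_bool, Fintype.card_fin,
      Fintype.card_subtype]
    have h1 : (univ.filter fun i : Fin I => own i = some j).card ≤ Q := by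
      refine le_trans (le_of_eq ?_) (hQ j)
      refine card_bij (fun i _ => (i : ℕ)) ?_ ?_ ?_
      · intro i hi
        exact mem_filter.2 ⟨mem_range.2 i.2, (mem_filter.1 hi).2⟩
      · intro i _ i' _ h
        exact Fin.ext h
      · intro i hi
        obtain ⟨h1, h2⟩ := mem_filter.1 hi
        exact ⟨⟨i, mem_range.1 h1⟩, mem_filter.2 ⟨mem_univ _, h2⟩, rfl⟩
    rw [← pow_mul, ← pow_mul]
    refine Nat.pow_le_pow_right (by norm_num) ?_
    rw [← mul_assoc]
    exact Nat.mul_le_mul_left _ h1
  · intro j x x' hxx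
    have key : ∀ y y' : Fin n → α, (∀ i, (∀ j', j' ≠ j → i ∉ B j') → y i = y' i) →
        ∀ (i : {i : Fin I // own i = some j}) a b,
          M.Reach y (τ i.1) (τ (i.1 + 1) - τ i.1) a b →
          M.Reach y' (τ i.1) (τ (i.1 + 1) - τ i.1) a b := by
      intro y y' hyy i a b h
      refine M.reach_congr (fun t ht ht' c => hyy _ fun j' hj' hmem => ?_) a b h
      have h1 := hown i.1 i.1.2 t ht (by have := hτ i.1 i.1.2; omega) c j' hmem
      rw [i.2] at h1
      exact hj' (Option.some.inj h1).symm
    funext i a b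
    exact decide_eq_decide.2 ⟨key x x' hxx i a b,
      key x' x (fun v hv => (hxx v hv).symm) i a b⟩
  · intro x x' hx hxx hκ
    rw [hF, M.accepts_iff] at hx ⊢
    obtain ⟨a, b, h1, h2, h3⟩ := hx
    refine ⟨a, b, h1, h2, ?_⟩
    have key : ∀ i, i ≤ I → ∀ c, M.Reach x 0 (τ i) a c → M.Reach x' 0 (τ i) a c := by
      intro i
      induction i with
      | zero =>
        intro _ c h
        rw [hτ0] at h ⊢
        exact h
      | succ i ih =>
        intro hi c h
        have e : τ (i + 1) = τ i + (τ (i + 1) - τ i) := by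
          have := hτ i (by omega)
          omega
        rw [e, M.reach_add] at h ⊢
        obtain ⟨c', h4, h5⟩ := h
        refine ⟨c', ih (by omega) c' h4, ?_⟩
        rw [zero_add] at h5 ⊢
        cases ho : own i with
        | none =>
          refine M.reach_congr (fun t ht ht' c => hxx _ fun j hmem => ?_) c' c h5
          have h6 := hown i (by omega) t ht (by omega) c j hmem
          rw [ho] at h6
          cases h6
        | some j =>
          have h6 := congrFun (congrFun (congrFun (hκ j) ⟨⟨i, by omega⟩, ho⟩) c') c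
          exact (decide_eq_decide.1 h6).1 h5
    have h4 := key I le_rfl b
    rw [hτI] at h4
    exact h4 h3

/-- the cut points -/
def cutp (n m J i : ℕ) : ℕ := i / (J + 1) * n + i % (J + 1) * m

theorem cutp_lt {n m J i : ℕ} (h : i % (J + 1) < J) :
    cutp n m J (i + 1) = i / (J + 1) * n + (i % (J + 1) + 1) * m := by
  have hJ1 : 0 < J + 1 := Nat.succ_pos _
  have h2 := Nat.div_add_mod i (J + 1)
  have h3 : i + 1 = (J + 1) * (i / (J + 1)) + (i % (J + 1) + 1) := by omega
  have h4 : (i + 1) / (J + 1) = i / (J + 1) := by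
    conv_lhs => rw [h3]
    rw [Nat.mul_add_div hJ1, Nat.div_eq_of_lt (by omega : i % (J + 1) + 1 < J + 1), add_zero]
  have h5 : (i + 1) % (J + 1) = i % (J + 1) + 1 := by
    conv_lhs => rw [h3]
    rw [Nat.mul_add_mod, Nat.mod_eq_of_lt (by omega : i % (J + 1) + 1 < J + 1)]
  unfold cutp
  rw [h4, h5]

theorem cutp_eq {n m J i : ℕ} (h : i % (J + 1) = J) :
    cutp n m J (i + 1) = i / (J + 1) * n + n := by
  have hJ1 : 0 < J + 1 := Nat.succ_pos _
  have h2 := Nat.div_add_mod i (J + 1)
  have h3 : i + 1 = (J + 1) * (i / (J + 1) + 1) := by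
    rw [mul_add, mul_one]
    omega
  have h4 : (i + 1) / (J + 1) = i / (J + 1) + 1 := by
    conv_lhs => rw [h3]
    rw [Nat.mul_div_cancel_left _ hJ1]
  have h5 : (i + 1) % (J + 1) = 0 := by
    conv_lhs => rw [h3]
    rw [Nat.mul_mod_right]
  unfold cutp
  rw [h4, h5]
  ring

/-- **Programs which read the word in passes.** -/
theorem pass_bound (hm : 1 ≤ m) (q : ℕ)
    (M : Program α n w) (σ : Fin n ≃ Fin n) (hL : M.levels = q * n)
    (hσ : ∀ t < q * n, ∀ a, (σ (M.query t a) : ℕ) = t % n)
    (S F : Finset (Fin n → α)) (hS : Thin m R S) (hF : ∀ x, x ∈ F ↔ M.Accepts x) :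
    ((S ∩ F).card : ℝ) ≤ 32 * ((2 ^ (w * w * q) : ℕ) : ℝ) * (R / Fintype.card α ^ m) * F.card +
      Fintype.card α ^ n / 2 ^ (n / m) := by
  classical
  set J := n / m with hJ
  have hJm : J * m ≤ n := Nat.div_mul_le_self n m
  refine prog_bound (fun j : Fin J => univ.filter fun v => (σ v : ℕ) / m = j) ?_ ?_ M
    (q * (J + 1)) (cutp n m J) ?_ ?_ ?_
    (fun i => if h : i % (J + 1) < J then some ⟨i % (J + 1), h⟩ else none) ?_ ?_ S F hS hF
  · intro j
    have hlt : ∀ a : Fin m, (j : ℕ) * m + a < n := by
      intro a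
      have h1 : (j : ℕ) + 1 ≤ J := j.2
      have h2 : ((j : ℕ) + 1) * m ≤ n := (Nat.mul_le_mul_right m h1).trans hJm
      have h3 := a.2
      nlinarith
    have h1 : (univ.filter fun v : Fin n => (σ v : ℕ) / m = j).card = (univ : Finset (Fin m)).card := by
      symm
      refine card_bij (fun a _ => σ.symm ⟨j * m + a, hlt a⟩) ?_ ?_ ?_
      · intro a _
        rw [mem_filter]
        refine ⟨mem_univ _, ?_⟩
        rw [Equiv.apply_symm_apply]
        show (j * m + a : ℕ) / m = j
        rw [mul_comm, Nat.mul_add_div (by omega), Nat.div_eq_of_lt a.2, add_zero]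
      · intro a _ a' _ h
        have h2 := congrArg Fin.val (σ.symm.injective h)
        exact Fin.ext (Nat.add_left_cancel h2)
      · intro v hv
        have h2 := (mem_filter.1 hv).2
        have h3 := Nat.div_add_mod (σ v : ℕ) m
        refine ⟨⟨(σ v : ℕ) % m, Nat.mod_lt _ (by omega)⟩, mem_univ _, ?_⟩
        rw [Equiv.symm_apply_eq]
        apply Fin.ext
        show (j : ℕ) * m + (σ v : ℕ) % m = σ v
        rw [← h2, mul_comm]
        exact h3
    rw [h1, card_univ, Fintype.card_fin]
  · intro j j' hne
    rw [Finset.disjoint_left]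
    intro v hv hv'
    have h1 := (mem_filter.1 hv).2
    have h2 := (mem_filter.1 hv').2
    exact hne (Fin.ext (h1.symm.trans h2))
  · intro i _
    have hJ1 : 0 < J + 1 := Nat.succ_pos _
    show cutp n m J i ≤ cutp n m J (i + 1)
    by_cases h : i % (J + 1) = J
    · rw [cutp_eq h]
      unfold cutp
      rw [h]
      exact Nat.add_le_add_left hJm _
    · have h0 : i % (J + 1) < J := by
        have := Nat.mod_lt i hJ1
        omega
      rw [cutp_lt h0]
      unfold cutp
      exact Nat.add_le_add_left (Nat.mul_le_mul_right m (Nat.le_succ _)) _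
  · unfold cutp
    simp
  · unfold cutp
    rw [Nat.mul_div_cancel _ (Nat.succ_pos J), Nat.mul_mod_left, zero_mul, add_zero, hL]
  · intro i hi t ht ht' a j hmem
    have hJ1 : 0 < J + 1 := Nat.succ_pos _
    have hiq : i / (J + 1) < q := Nat.div_lt_of_lt_mul (by rwa [mul_comm] at hi)
    have h1 : (σ (M.query t a) : ℕ) / m = j := (mem_filter.1 hmem).2
    obtain ⟨s, hs⟩ : ∃ s, t = i / (J + 1) * n + s := ⟨t - i / (J + 1) * n, by
      unfold cutp at ht
      omega⟩
    have hs1 : i % (J + 1) * m ≤ s := by
      unfold cutp at ht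
      omega
    have hsn : s < n ∧ (i % (J + 1) < J → s < (i % (J + 1) + 1) * m) := by
      by_cases h : i % (J + 1) = J
      · rw [cutp_eq h] at ht'
        exact ⟨by omega, fun h' => absurd h (by omega)⟩
      · have h0 : i % (J + 1) < J := by
          have := Nat.mod_lt i hJ1
          omega
        rw [cutp_lt h0] at ht'
        have h2 : (i % (J + 1) + 1) * m ≤ J * m := Nat.mul_le_mul_right m (by omega)
        exact ⟨by omega, fun _ => by omega⟩
    have htq : t < q * n := by
      have h2 : (i / (J + 1) + 1) * n ≤ q * n := Nat.mul_le_mul_right n (by omega)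
      rw [add_mul, one_mul] at h2
      omega
    have h3 : t % n = s := by
      rw [hs, mul_comm, Nat.mul_add_mod, Nat.mod_eq_of_lt hsn.1]
    rw [hσ t htq, h3] at h1
    by_cases h : i % (J + 1) < J
    · have h4 : s / m = i % (J + 1) := by
        apply Nat.div_eq_of_lt_le hs1
        exact hsn.2 h
      rw [dif_pos h]
      congr 1
      apply Fin.ext
      show i % (J + 1) = j
      rw [← h4, h1]
    · exfalso
      have h0 : i % (J + 1) = J := by
        have := Nat.mod_lt i hJ1
        omega
      rw [h0] at hs1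
      have h4 : J ≤ s / m := (Nat.le_div_iff_mul_le (by omega)).2 hs1
      have := j.2
      omega
  · intro j
    refine (card_le_card_of_injOn (fun i => i / (J + 1)) (t := range q) ?_ ?_).trans
      (le_of_eq (card_range q))
    · intro i hi
      have h1 := mem_range.1 (mem_filter.1 (mem_coe.1 hi)).1
      exact mem_coe.2 (mem_range.2 (Nat.div_lt_of_lt_mul (by rwa [mul_comm] at h1)))
    · intro i hi i' hi' h
      have h1 := (mem_filter.1 (mem_coe.1 hi)).2
      have h2 := (mem_filter.1 (mem_coe.1 hi')).2
      have key : ∀ i, (if h : i % (J + 1) < J then some (⟨i % (J + 1), h⟩ : Fin J) else none) = some j →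
          i % (J + 1) = j := by
        intro i hi
        by_cases h : i % (J + 1) < J
        · rw [dif_pos h] at hi
          exact congrArg Fin.val (Option.some.inj hi)
        · rw [dif_neg h] at hi
          cases hi
      have h3 := key i h1
      have h4 := key i' h2
      have h5 : i / (J + 1) = i' / (J + 1) := h
      rw [← Nat.div_add_mod i (J + 1), ← Nat.div_add_mod i' (J + 1), h3, h4, h5]

end

end Pool.Agent.X222.RW
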