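import Pool.Agent.X222.AP.Order
import Pool.Agent.X222.RW.Prog

set_option autoImplicit false

/-!
# Branching programs which read the word in an arbitrary order, over any alphabet
-/

namespace Pool.Agent.X222.RW

open Finset Function
open Pool.Agent.X222.AP (order_blocks tms tms' tms'_nonempty)

section
variable {α : Type} [Fintype α] [DecidableEq α] [Nonempty α] {n w : ℕ} {J m R : ℕ}

/-- **Programs of linear length which read the word in any order.** -/
theorem order_bound (hm : 1 ≤ m) {q : ℕ}
    (hw : 1 ≤ w) (hq : 1 ≤ q) (M : Program α n w) (hL : M.levels ≤ q * n)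
    (hn : J = 0 ∨ 4 * (m * (4 * (2 * w * q) * (w * q + w + 2) * J + 1) ^ (2 * w * q)) ≤ n)
    (S F : Finset (Fin n → α)) (hS : Thin m R S) (hF : ∀ x, x ∈ F ↔ M.Accepts x) :
    ((S ∩ F).card : ℝ) ≤ 32 * ((2 ^ (w * w * (2 * w * q)) : ℕ) : ℝ) * (R / Fintype.card α ^ m) * F.card +
      Fintype.card α ^ n / 2 ^ J := by
  classical
  by_cases hJ : J = 0
  · rw [hJ, pow_zero, div_one]
    have h3 : ((S ∩ F).card : ℝ) ≤ Fintype.card α ^ n := by
      have h4 : (S ∩ F).card ≤ Fintype.card α ^ n := by
        refine (card_le_univ _).trans (le_of_eq ?_)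
        rw [Fintype.card_fun, Fintype.card_fin]
      exact_mod_cast h4
    have : (0 : ℝ) ≤ 32 * ((2 ^ (w * w * (2 * w * q)) : ℕ) : ℝ) * (R / Fintype.card α ^ m) * F.card := by
      positivity
    linarith
  · have hn' := hn.resolve_left hJ
    obtain ⟨K, hK⟩ : ∃ K, K = 4 * (2 * w * q) * (w * q + w + 2) * J := ⟨_, rfl⟩
    rw [← hK] at hn'
    obtain ⟨B, ty, hB1, hty1, hty2, hB2⟩ := order_blocks M.query (m := m) hw hq
      (Nat.one_le_iff_ne_zero.2 hJ) hL hK hn' hm
    have hK0 : 0 < K := by
      rw [hK]
      have : 0 < J := Nat.pos_of_ne_zero hJ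
      positivity
    set len := M.levels / K + 1 with hlen
    have hLK : M.levels ≤ K * len := by
      rw [hlen, mul_add, mul_one]
      have h1 := Nat.div_add_mod M.levels K
      have h2 := Nat.mod_lt M.levels hK0
      omega
    let own : ℕ → Option (Fin J) := fun i => if h : ∃ j, i ∈ ty j then some h.choose else none
    have hownty : ∀ i j, i ∈ ty j → own i = some j := by
      intro i j hij
      have h : ∃ j, i ∈ ty j := ⟨j, hij⟩
      show (if h : ∃ j, i ∈ ty j then some h.choose else none) = some j
      rw [dif_pos h]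
      congr 1
      by_contra hne
      exact (Finset.disjoint_left.1 (hty2 _ _ hne)) h.choose_spec hij
    refine prog_bound B hB1 ?_ M K (fun i => min (i * len) M.levels) ?_ ?_ ?_ own ?_ ?_ S F hS hF
    · intro j j' hne
      rw [Finset.disjoint_left]
      intro v hv hv'
      have h1 := hB2 j v hv
      have h2 := hB2 j' v hv'
      have h3 := hty2 j j' hne
      rw [← h1, ← h2] at h3
      obtain ⟨u, hu⟩ := tms'_nonempty M.query M.levels len K v
      exact (Finset.disjoint_left.1 h3) hu hu
    · intro i _
      exact min_le_min_right _ (Nat.mul_le_mul_right len (Nat.le_succ i))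
    · show min (0 * len) M.levels = 0
      rw [zero_mul]
      exact Nat.min_eq_left (Nat.zero_le _)
    · exact Nat.min_eq_right hLK
    · intro i _ t ht ht' a j hmem
      have h1 : t < M.levels := lt_of_lt_of_le ht' (min_le_right _ _)
      have h2 : t < (i + 1) * len := lt_of_lt_of_le ht' (min_le_left _ _)
      have h3 : i * len ≤ t := by
        have h4 : min (i * len) M.levels ≤ t := ht
        rcases min_le_iff.1 h4 with h | h
        · exact h
        · omega
      have h4 : t / len = i := Nat.div_eq_of_lt_le h3 h2
      apply hownty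
      rw [← hB2 j _ hmem]
      have h5 : i ∈ tms M.query M.levels len (M.query t a) := by
        unfold tms
        refine mem_image.2 ⟨(t, a), mem_filter.2 ⟨mem_product.2 ⟨mem_range.2 h1, mem_univ _⟩, rfl⟩, h4⟩
      unfold tms'
      rw [if_neg (nonempty_iff_ne_empty.1 ⟨i, h5⟩)]
      exact h5
    · intro j
      refine le_trans (card_le_card ?_) (hty1 j)
      intro i hi
      have h1 : (if h : ∃ j, i ∈ ty j then some h.choose else none) = some j := (mem_filter.1 hi).2
      by_cases h : ∃ j, i ∈ ty j
      · rw [dif_pos h] at h1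
        have h2 := Option.some.inj h1
        rw [← h2]
        exact h.choose_spec
      · rw [dif_neg h] at h1
        cases h1

end

end Pool.Agent.X222.RW
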